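import Pool.Agent.Helper45.PL.Defs
import Pool.Agent.Helper59.TW.PX1

/-!
# Project PL, block B9: the levels `TT`
-/

set_option autoImplicit false

namespace Pool.Agent.PRL

open VC IntermediateField NumberField IsDedekindDomain Pool.Agent.SC Pool.Agent.Helper91.Sect
open Pool.Agent.L (L0 MM)
open Pool.Agent.LN (Geo)
open Pool.Agent.M (StmtFT const_of_pow)
open Pool.Agent.TOW (Au AuE FGL L0_le_MM inL59 rMM59 ff59)

section t88

variable {E K0 U : Type} [Field E] [Field K0] [Field U] [Algebra E U] [Algebra K0 U]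

/-- an automorphism which preserves `E` and maps the generators of a field to a second field -/
theorem map_adj88 {T : U ≃+* U} (hE : ∀ e : E, ∃ e' : E, T (algebraMap E U e) = algebraMap E U e')
    {S : Set U} {N : IntermediateField E U} (hS : ∀ x ∈ S, T x ∈ N) :
    ∀ z ∈ IntermediateField.adjoin E S, T z ∈ N := by
  intro z hz
  refine IntermediateField.adjoin_induction (p := fun z _ => T z ∈ N) E hS ?_ ?_ ?_ ?_ hz
  · intro e
    obtain ⟨e', he'⟩ := hE e
    rw [he']
    exact N.algebraMap_mem e'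
  · intro a b _ _ ha hb
    rw [map_add]
    exact add_mem ha hb
  · intro a _ ha
    rw [map_inv₀]
    exact inv_mem ha
  · intro a b _ _ ha hb
    rw [map_mul]
    exact mul_mem ha hb

/-- an automorphism over `E` which fixes the generators of a field -/
theorem fix_adj88 {T : U ≃+* U} (hE : ∀ e : E, T (algebraMap E U e) = algebraMap E U e)
    {S : Set U} (hS : ∀ x ∈ S, T x = x) : ∀ z ∈ IntermediateField.adjoin E S, T z = z := by
  intro z hz
  refine IntermediateField.adjoin_induction (p := fun z _ => T z = z) E hS hE ?_ ?_ ?_ hz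
  · intro a b _ _ ha hb
    rw [map_add, ha, hb]
  · intro a _ ha
    rw [map_inv₀, ha]
  · intro a b _ _ ha hb
    rw [map_mul, ha, hb]

/-- an automorphism which fixes `w ^ ℓ` multiplies `w` by a constant -/
theorem root88 [IsAlgClosed E] {ℓ : ℕ} (hℓ : 0 < ℓ) {T : U ≃+* U} {w : U}
    (hw : T (w ^ ℓ) = w ^ ℓ) : ∃ e : E, T w = algebraMap E U e * w ∧ e ^ ℓ = 1 := by
  by_cases hw0 : w = 0
  · exact ⟨1, by rw [hw0, map_zero, mul_zero], one_pow _⟩
  · have h1 : (T w / w) ^ ℓ = 1 := by
      rw [div_pow, ← map_pow, hw]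
      exact div_self (pow_ne_zero ℓ hw0)
    obtain ⟨e, he⟩ := const_of_pow (E := E) hℓ h1
    refine ⟨e, by rw [he, div_mul_cancel₀ _ hw0], ?_⟩
    apply (algebraMap E U).injective
    rw [map_pow, he, h1, map_one]

/-- powers of an automorphism over `E` -/
theorem powE88 {T : U ≃+* U} (hE : ∀ e : E, T (algebraMap E U e) = algebraMap E U e) (n : ℕ)
    (e : E) : (T ^ n) (algebraMap E U e) = algebraMap E U e := by
  induction n with
  | zero => rfl
  | succ n ih =>
    rw [pow_succ]
    show (T ^ n) (T (algebraMap E U e)) = _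
    rw [hE, ih]

theorem powW88 {T : U ≃+* U} (hE : ∀ e : E, T (algebraMap E U e) = algebraMap E U e) {e : E}
    {w : U} (hw : T w = algebraMap E U e * w) (n : ℕ) :
    (T ^ n) w = algebraMap E U (e ^ n) * w := by
  induction n with
  | zero => rw [pow_zero, pow_zero, map_one, one_mul]; rfl
  | succ n ih =>
    rw [pow_succ]
    show (T ^ n) (T w) = _
    rw [hw, map_mul, powE88 hE, ih, pow_succ, map_mul]
    ring

/-- the `ℓ`-th power of an automorphism over `E` which fixes `w ^ ℓ` fixes `w` -/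
theorem powF88 [IsAlgClosed E] {ℓ : ℕ} (hℓ : 0 < ℓ) {T : U ≃+* U}
    (hE : ∀ e : E, T (algebraMap E U e) = algebraMap E U e) {w : U}
    (hw : T (w ^ ℓ) = w ^ ℓ) : (T ^ ℓ) w = w := by
  obtain ⟨e, he, he1⟩ := root88 (E := E) hℓ hw
  rw [powW88 hE he, he1, map_one, one_mul]

theorem MM_le_TT88 {r : U} {ℓ : ℕ} (m : ℕ) : MM E K0 r ≤ TT E K0 r ℓ m := by
  induction m with
  | zero => exact le_rfl
  | succ m ih =>
    exact le_trans ih (fun x hx => IntermediateField.subset_adjoin _ _ (Or.inl hx))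

theorem L0_le_TT88 {r : U} {ℓ : ℕ} (m : ℕ) : L0 E K0 (U := U) ≤ TT E K0 r ℓ m :=
  le_trans L0_le_MM (MM_le_TT88 m)

/-- automorphisms over `K0` preserve the tower -/
theorem map_TT88 [IsAlgClosed E] {ℓ : ℕ} (hℓ : 0 < ℓ) {r : U} {h : K0}
    (hr : r ^ ℓ = algebraMap K0 U h) {T : U ≃+* U} (hT : Au E K0 T) (m : ℕ) :
    ∀ z ∈ TT E K0 r ℓ m, T z ∈ TT E K0 r ℓ m := by
  induction m with
  | zero =>
    refine map_adj88 hT.presE ?_
    rintro x (⟨c, rfl⟩ | hx)
    · rw [hT.fixK]
      exact L0_le_MM (inL59 c)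
    · rw [Set.mem_singleton_iff.1 hx]
      obtain ⟨e, he, -⟩ := root88 (E := E) hℓ (T := T) (w := r) (by rw [hr, hT.fixK])
      rw [he]
      exact mul_mem (IntermediateField.algebraMap_mem _ _) rMM59
  | succ m ih =>
    refine map_adj88 hT.presE ?_
    rintro x (hx | hx)
    · exact IntermediateField.subset_adjoin _ _ (Or.inl (ih x hx))
    · refine IntermediateField.subset_adjoin _ _ (Or.inr ?_)
      show (T x) ^ ℓ ∈ TT E K0 r ℓ m
      rw [← map_pow]
      exact ih _ hx

/-- the group over `L0` is an `ℓ`-group -/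
theorem pl88 [IsAlgClosed E] {ℓ : ℕ} (hℓ : 0 < ℓ) {r : U} {h : K0}
    (hr : r ^ ℓ = algebraMap K0 U h) (m : ℕ) : IsPL E K0 ℓ (TT E K0 r ℓ m) := by
  intro a ha
  induction m with
  | zero =>
    refine ⟨1, ?_⟩
    rw [pow_one]
    refine fix_adj88 (powE88 ha.fixE ℓ) ?_
    rintro x (⟨c, rfl⟩ | hx)
    · have h1 : ∀ n : ℕ, (a ^ n) (algebraMap K0 U c) = algebraMap K0 U c := by
        intro n
        induction n with
        | zero => rfl
        | succ n ih =>
          rw [pow_succ]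
          show (a ^ n) (a (algebraMap K0 U c)) = _
          rw [ha.fixK, ih]
      exact h1 ℓ
    · rw [Set.mem_singleton_iff.1 hx]
      exact powF88 hℓ ha.fixE (by rw [hr, ha.fixK])
  | succ m ih =>
    obtain ⟨j, hj⟩ := ih
    refine ⟨j + 1, ?_⟩
    rw [pow_succ, pow_mul]
    have hE : ∀ e : E, (a ^ (ℓ ^ j)) (algebraMap E U e) = algebraMap E U e := powE88 ha.fixE _
    refine fix_adj88 (powE88 hE ℓ) ?_
    rintro x (hx | hx)
    · have h1 : ∀ n : ℕ, ((a ^ (ℓ ^ j)) ^ n) x = x := by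
        intro n
        induction n with
        | zero => rfl
        | succ n ih =>
          rw [pow_succ]
          show ((a ^ (ℓ ^ j)) ^ n) ((a ^ (ℓ ^ j)) x) = _
          rw [hj x hx, ih]
      exact h1 ℓ
    · exact powF88 hℓ hE (hj _ hx)

/-- `TT m` is generated over `L0` by finitely many elements, and a function field -/
theorem fGL88 [IsAlgClosed E] [CharZero E] (hFT : StmtFT) {ℓ : ℕ} (hℓ : 0 < ℓ) {r : U}
    (ff : IsFunctionField E (L0 E K0 (U := U))) [Algebra.IsAlgebraic (L0 E K0 (U := U)) U]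
    (hc : IsCover (MM E K0 r)) (m : ℕ) :
    FGL E K0 (TT E K0 r ℓ m) ∧ IsFunctionField E (TT E K0 r ℓ m) := by
  classical
  induction m with
  | zero =>
    refine ⟨⟨{r}, fun N hLN hZN => ?_⟩, hc.ff⟩
    refine IntermediateField.adjoin_le_iff.2 ?_
    rintro x (⟨c, rfl⟩ | hx)
    · exact hLN (inL59 c)
    · rw [Set.mem_singleton_iff.1 hx]
      exact hZN _ (Finset.mem_singleton_self r)
  | succ m ih =>
    obtain ⟨⟨Z, hZ⟩, hF⟩ := ih
    obtain ⟨S, hS0, hS⟩ := hFT E (TT E K0 r ℓ m) hF ℓ hℓ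
    have hex : ∀ t : TT E K0 r ℓ m, ∃ w : U, (∃ w' : U, w' ^ ℓ = (t : U)) → w ^ ℓ = (t : U) := by
      intro t
      by_cases h : ∃ w' : U, w' ^ ℓ = (t : U)
      · obtain ⟨w, hw⟩ := h
        exact ⟨w, fun _ => hw⟩
      · exact ⟨1, fun h' => absurd h' h⟩
    choose g hg using hex
    have hG : FGL E K0 (TT E K0 r ℓ (m + 1)) := by
      refine ⟨Z ∪ S.image g, fun N hLN hZN => ?_⟩
      have hTN : TT E K0 r ℓ m ≤ N :=
        hZ N hLN fun z hz => hZN z (Finset.mem_union_left _ hz)
      refine IntermediateField.adjoin_le_iff.2 ?_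
      rintro w (hw | hw)
      · exact hTN hw
      · by_cases hw0 : w = 0
        · rw [hw0]
          exact N.zero_mem
        obtain ⟨f, hf⟩ : ∃ f : TT E K0 r ℓ m, (f : U) = w ^ ℓ := ⟨⟨w ^ ℓ, hw⟩, rfl⟩
        have hf0 : f ≠ 0 := by
          rintro rfl
          exact pow_ne_zero ℓ hw0 hf.symm
        obtain ⟨t, ht, l, hl⟩ := hS f hf0 fun P => hc.dvd_ord (MM_le_TT88 m) hF hf0 hf.symm P
        have ht0 := hS0 t ht
        have hl0 : l ≠ 0 := by
          rintro rfl
          rw [zero_pow hℓ.ne', mul_zero] at hl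
          exact hf0 hl
        have hlU : (l : U) ≠ 0 := fun h => hl0 (Subtype.ext h)
        have htU : (t : U) ≠ 0 := fun h => ht0 (Subtype.ext h)
        have h1 : (w / (l : U)) ^ ℓ = (t : U) := by
          rw [div_pow, ← hf, hl]
          show ((t : U) * (l : U) ^ ℓ) / (l : U) ^ ℓ = t
          rw [mul_div_cancel_right₀ _ (pow_ne_zero ℓ hlU)]
        have h2 := hg t ⟨_, h1⟩
        have hg0 : g t ≠ 0 := by
          intro h0
          rw [h0, zero_pow hℓ.ne'] at h2
          exact htU h2.symm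
        have h3 : (w / (l : U) / g t) ^ ℓ = 1 := by
          rw [div_pow, h1, h2, div_self htU]
        obtain ⟨e, he⟩ := const_of_pow (E := E) hℓ h3
        have h4 : w = algebraMap E U e * g t * l := by
          rw [he]
          field_simp
        rw [h4]
        exact mul_mem (mul_mem (IntermediateField.algebraMap_mem _ _)
          (hZN _ (Finset.mem_union_right _ (Finset.mem_image_of_mem g ht)))) (hTN l.2)
    exact ⟨hG, ff59 ff (L0_le_TT88 (m + 1)) hG⟩

end t88

/-- BLOCK B9 -/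
theorem tOWU_of (hFT : StmtFT) : StmtTOWU := by
  intro k K0 E U _ _ _ _ _ _ _ _ _ _ _ _ ℓ h r hℓ G m
  have hclE : IsAlgClosed E := G.clE
  have hcE : CharZero E := charZero_of_injective_algebraMap (algebraMap k E).injective
  have hn : Normal K0 U := G.normal
  have hcL : CharZero (L0 E K0 (U := U)) :=
    charZero_of_injective_algebraMap (algebraMap E (L0 E K0 (U := U))).injective
  have hgal : IsGalois (L0 E K0 (U := U)) U := by
    let aKL : Algebra K0 (L0 E K0 (U := U)) :=
      (RingHom.codRestrict (algebraMap K0 U) (L0 E K0 (U := U)) inL59).toAlgebra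
    have sKL : IsScalarTower K0 (L0 E K0 (U := U)) U := IsScalarTower.of_algebraMap_eq fun x => rfl
    have hnL : Normal (L0 E K0 (U := U)) U := Normal.tower_top_of_normal K0 (L0 E K0 (U := U)) U
    exact ⟨⟩
  have halg : Algebra.IsAlgebraic (L0 E K0 (U := U)) U := inferInstance
  have hff := (fGL88 hFT hℓ.pos G.ff G.cover m).2
  exact ⟨⟨hff, fun x => L0_le_TT88 m (inL59 x), fun T h1 h2 =>
    map_TT88 hℓ.pos G.rpow ⟨h1, h2⟩ m⟩, MM_le_TT88 m, pl88 hℓ.pos G.rpow m⟩

/-- BLOCK B9 -/
theorem tOWU : StmtTOWU := tOWU_of Pool.Agent.M.fT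

end Pool.Agent.PRL
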